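import Pool.Agent.Helper97.Tate.Goals

/-!
# FewPoints (MP_d3128a_ag), packet TATE-KRC: all columns span
-/

set_option autoImplicit false

namespace Pool.Agent.Helper35.Tate.KRC

open Pool.Agent.Helper97.Tate Module

theorem indep_mono {M : ℕ} {S S' : Finset (ℤ × ℤ)} (h : S ⊆ S') (hS : Indep M S') :
    Indep M S := by
  classical
  intro a ha p hp
  have h1 := hS (fun p => if p ∈ S then a p else 0) (by
    intro α β hαβ
    refine Eq.trans ?_ (ha α β hαβ)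
    symm
    rw [← Finset.sum_subset h]
    · refine Finset.sum_congr rfl fun q hq => ?_
      rw [if_pos hq]
    · intro q _ hq
      rw [if_neg hq, zero_mul]) p (h hp)
  rwa [if_pos hp] at h1

theorem card_tri (M : ℕ) :
    Fintype.card {p : Fin M × Fin M // (p.1 : ℕ) + (p.2 : ℕ) < M} = (M + 1).choose 2 := by
  rw [Fintype.card_subtype, Finset.card_filter, Fintype.sum_prod_type]
  have h1 : ∀ i : Fin M, ∑ j : Fin M, (if (i : ℕ) + (j : ℕ) < M then 1 else 0) = M - (i : ℕ) := by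
    intro i
    rw [Fin.sum_univ_eq_sum_range (fun j => if (i : ℕ) + j < M then 1 else 0) M,
      ← Finset.card_filter]
    have h2 : (Finset.range M).filter (fun j => (i : ℕ) + j < M) = Finset.range (M - (i : ℕ)) := by
      ext j
      simp only [Finset.mem_filter, Finset.mem_range]
      omega
    rw [h2, Finset.card_range]
  rw [Finset.sum_congr rfl fun i _ => h1 i, Fin.sum_univ_eq_sum_range (fun i => M - i) M]
  have h3 : ∀ n : ℕ, ∑ i ∈ Finset.range n, (n - i) = (n + 1).choose 2 := by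
    intro n
    induction n with
    | zero => rfl
    | succ n ih =>
      rw [Finset.sum_range_succ']
      have h4 : ∑ i ∈ Finset.range n, (n + 1 - (i + 1)) = ∑ i ∈ Finset.range n, (n - i) :=
        Finset.sum_congr rfl fun i _ => by omega
      have h5 : (n + 1 + 1).choose 2 = (n + 1) + (n + 1).choose 2 := by
        rw [Nat.choose_succ_succ' (n + 1) 1, Nat.choose_one_right]
      rw [h4, ih, h5]
      omega
  exact h3 M

/-- the least integer `n` with `(2P-1) j ≤ 2P² n`. -/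
def ce (P : ℕ) (j : ℤ) : ℤ := -((-((2 * (P : ℤ) - 1) * j)) / (2 * (P : ℤ) ^ 2))

theorem ce_spec (P : ℕ) (hP : 1 ≤ P) (j : ℤ) :
    (2 * (P : ℤ) - 1) * j ≤ 2 * (P : ℤ) ^ 2 * ce P j ∧
      2 * (P : ℤ) ^ 2 * (ce P j - 1) < (2 * (P : ℤ) - 1) * j := by
  have hpos : (0 : ℤ) < 2 * (P : ℤ) ^ 2 := by positivity
  have h1 := Int.emod_nonneg (-((2 * (P : ℤ) - 1) * j)) hpos.ne'
  have h2 := Int.emod_lt_of_pos (-((2 * (P : ℤ) - 1) * j)) hpos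
  have h3 := Int.mul_ediv_add_emod (-((2 * (P : ℤ) - 1) * j)) (2 * (P : ℤ) ^ 2)
  unfold ce
  constructor <;> nlinarith

theorem t (hB : S_BLK) (hS : S_STR) (hL : S_LSS) : S_KRC := by
  classical
  intro k _ _ b κ' M z x y ρ E j0 hb hκ hρ hG
  rcases Nat.eq_zero_or_pos M with hM | hM
  · subst hM
    have hem : IsEmpty (Idx b 0) := ⟨fun p => p.2.1.1.elim0⟩
    have hsub : Subsingleton (Idx b 0 → KK k) := inferInstance
    exact Subsingleton.elim _ _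
  obtain ⟨⟨P, R, hPR, hch⟩, -, -⟩ := hL 1 M le_rfl
  have hl1 : loss 1 M = 0 := (hL 1 M le_rfl).2.2
  rw [hl1, one_mul, add_zero] at hch
  rw [mul_one] at hPR
  have hP : 1 ≤ P := by
    rcases Nat.eq_zero_or_pos P with h | h
    · exfalso
      subst h
      rw [zero_mul] at hch
      have h2 : 0 < (M + 1).choose 2 := Nat.choose_pos (by omega)
      omega
    · exact h
  have hκ0 : (0 : ℤ) < ((b * κ' : ℕ) : ℤ) := by
    have : 0 < b * κ' := Nat.mul_pos hb hκ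
    exact_mod_cast this
  have hP2 : (0 : ℤ) < 2 * (P : ℤ) ^ 2 := by positivity
  have hκ1 : (1 : ℤ) ≤ κ' := by exact_mod_cast hκ
  -- the points
  let f : Fin b × Fin (P * R) → ℤ × ℤ := fun q =>
    (((q.2 : ℕ) : ℤ), (κ' : ℤ) * ((q.1 : ℕ) : ℤ) + ce P ((q.2 : ℕ) : ℤ))
  have hf : Function.Injective f := by
    intro q q' h
    have h1 : ((q.2 : ℕ) : ℤ) = ((q'.2 : ℕ) : ℤ) := (Prod.ext_iff.1 h).1
    have h2 : (κ' : ℤ) * ((q.1 : ℕ) : ℤ) + ce P ((q.2 : ℕ) : ℤ) =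
      (κ' : ℤ) * ((q'.1 : ℕ) : ℤ) + ce P ((q'.2 : ℕ) : ℤ) := (Prod.ext_iff.1 h).2
    rw [h1] at h2
    have h3 : ((q.1 : ℕ) : ℤ) = ((q'.1 : ℕ) : ℤ) :=
      mul_left_cancel₀ (by omega : (κ' : ℤ) ≠ 0) (add_right_cancel h2)
    exact Prod.ext (Fin.ext (by exact_mod_cast h3)) (Fin.ext (by exact_mod_cast h1))
  let C : Finset (ℤ × ℤ) := Finset.univ.image f
  have hC1 : ∀ p ∈ C, 0 ≤ p.1 ∧ (2 * (P : ℤ) - 1) * p.1 ≤ 2 * (P : ℤ) ^ 2 * p.2 ∧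
      2 * (P : ℤ) ^ 2 * (p.2 - b * κ') < (2 * (P : ℤ) - 1) * p.1 := by
    intro p hp
    obtain ⟨q, -, rfl⟩ := Finset.mem_image.1 hp
    obtain ⟨c1, c2⟩ := ce_spec P hP ((q.2 : ℕ) : ℤ)
    have hq0 : (0 : ℤ) ≤ ((q.1 : ℕ) : ℤ) := Int.natCast_nonneg _
    have hqb : ((q.1 : ℕ) : ℤ) + 1 ≤ b := by
      have := q.1.isLt
      omega
    have h1 : 0 ≤ (κ' : ℤ) * ((q.1 : ℕ) : ℤ) := by positivity
    have h2 : (κ' : ℤ) * ((q.1 : ℕ) : ℤ) + 1 ≤ b * κ' := by nlinarith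
    refine ⟨Int.natCast_nonneg _, ?_, ?_⟩
    · show (2 * (P : ℤ) - 1) * ((q.2 : ℕ) : ℤ) ≤
        2 * (P : ℤ) ^ 2 * ((κ' : ℤ) * ((q.1 : ℕ) : ℤ) + ce P ((q.2 : ℕ) : ℤ))
      nlinarith
    · show 2 * (P : ℤ) ^ 2 * ((κ' : ℤ) * ((q.1 : ℕ) : ℤ) + ce P ((q.2 : ℕ) : ℤ) - b * κ') <
        (2 * (P : ℤ) - 1) * ((q.2 : ℕ) : ℤ)
      nlinarith
  have hC2 : ∀ i : ℕ, i < b → Indep M (C.filter fun p =>
      (2 * (P : ℤ) - 1) * p.1 + 2 * (P : ℤ) ^ 2 * κ' * i ≤ 2 * (P : ℤ) ^ 2 * p.2 ∧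
      2 * (P : ℤ) ^ 2 * (p.2 - κ' * (i + 1)) < (2 * (P : ℤ) - 1) * p.1) := by
    intro i hi
    refine indep_mono ?_ (hS P 1 M R ((κ' : ℤ) * i) hP le_rfl (by omega))
    intro p hp
    obtain ⟨hpC, hp1, hp2⟩ := Finset.mem_filter.1 hp
    obtain ⟨q, -, rfl⟩ := Finset.mem_image.1 hpC
    obtain ⟨c1, c2⟩ := ce_spec P hP ((q.2 : ℕ) : ℤ)
    change (2 * (P : ℤ) - 1) * ((q.2 : ℕ) : ℤ) + 2 * (P : ℤ) ^ 2 * κ' * i ≤
      2 * (P : ℤ) ^ 2 * ((κ' : ℤ) * ((q.1 : ℕ) : ℤ) + ce P ((q.2 : ℕ) : ℤ)) at hp1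
    change 2 * (P : ℤ) ^ 2 * ((κ' : ℤ) * ((q.1 : ℕ) : ℤ) + ce P ((q.2 : ℕ) : ℤ) -
      κ' * (i + 1)) < (2 * (P : ℤ) - 1) * ((q.2 : ℕ) : ℤ) at hp2
    have hqi : ((q.1 : ℕ) : ℤ) = i := by
      rcases lt_trichotomy ((q.1 : ℕ) : ℤ) (i : ℤ) with h | h | h
      · exfalso
        have h1 : (κ' : ℤ) * ((q.1 : ℕ) : ℤ) + 1 ≤ κ' * i := by nlinarith
        have h2 : 2 * (P : ℤ) ^ 2 * ((κ' : ℤ) * ((q.1 : ℕ) : ℤ) + 1) ≤
          2 * (P : ℤ) ^ 2 * (κ' * i) := mul_le_mul_of_nonneg_left h1 hP2.le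
        nlinarith
      · exact h
      · exfalso
        have h1 : (κ' : ℤ) * (i + 1) ≤ κ' * ((q.1 : ℕ) : ℤ) :=
          mul_le_mul_of_nonneg_left (by omega) (by omega)
        have h2 : 2 * (P : ℤ) ^ 2 * ((κ' : ℤ) * (i + 1)) ≤
          2 * (P : ℤ) ^ 2 * (κ' * ((q.1 : ℕ) : ℤ)) := mul_le_mul_of_nonneg_left h1 hP2.le
        nlinarith
    unfold strip
    rw [Finset.mem_filter, Finset.mem_product, Finset.mem_Ico, Finset.mem_Icc]
    show ((0 ≤ ((q.2 : ℕ) : ℤ) ∧ ((q.2 : ℕ) : ℤ) < ((P * R : ℕ) : ℤ)) ∧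
      ((κ' : ℤ) * i ≤ (κ' : ℤ) * ((q.1 : ℕ) : ℤ) + ce P ((q.2 : ℕ) : ℤ) ∧
        (κ' : ℤ) * ((q.1 : ℕ) : ℤ) + ce P ((q.2 : ℕ) : ℤ) ≤
          (κ' : ℤ) * i + ((P * R : ℕ) : ℤ) + ((1 : ℕ) : ℤ))) ∧
      ((2 * (P : ℤ) - 1) * ((q.2 : ℕ) : ℤ) ≤ 2 * (P : ℤ) ^ 2 *
        ((κ' : ℤ) * ((q.1 : ℕ) : ℤ) + ce P ((q.2 : ℕ) : ℤ) - (κ' : ℤ) * i) ∧
      2 * (P : ℤ) ^ 2 * ((κ' : ℤ) * ((q.1 : ℕ) : ℤ) + ce P ((q.2 : ℕ) : ℤ) - (κ' : ℤ) * i -
        ((1 : ℕ) : ℤ)) < (2 * (P : ℤ) - 1) * ((q.2 : ℕ) : ℤ))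
    rw [hqi]
    have hj0 : (0 : ℤ) ≤ ((q.2 : ℕ) : ℤ) := Int.natCast_nonneg _
    have hj1 : ((q.2 : ℕ) : ℤ) < ((P * R : ℕ) : ℤ) := by exact_mod_cast q.2.isLt
    have hP1 : (1 : ℤ) ≤ P := by exact_mod_cast hP
    have hce0 : 0 ≤ ce P ((q.2 : ℕ) : ℤ) := by
      by_contra hneg
      have h1 : ce P ((q.2 : ℕ) : ℤ) ≤ -1 := by omega
      have h2 : 0 ≤ (2 * (P : ℤ) - 1) * ((q.2 : ℕ) : ℤ) := mul_nonneg (by omega) hj0
      nlinarith
    have hce1 : ce P ((q.2 : ℕ) : ℤ) ≤ ((q.2 : ℕ) : ℤ) + 1 := by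
      by_contra hneg
      have h1 : ((q.2 : ℕ) : ℤ) + 1 ≤ ce P ((q.2 : ℕ) : ℤ) - 1 := by omega
      have h2 : 2 * (P : ℤ) ^ 2 * (((q.2 : ℕ) : ℤ) + 1) ≤
        2 * (P : ℤ) ^ 2 * (ce P ((q.2 : ℕ) : ℤ) - 1) := mul_le_mul_of_nonneg_left h1 hP2.le
      have h3 : (2 * (P : ℤ) - 1) * ((q.2 : ℕ) : ℤ) ≤ 2 * (P : ℤ) ^ 2 * ((q.2 : ℕ) : ℤ) :=
        mul_le_mul_of_nonneg_right (by nlinarith) hj0
      nlinarith
    refine ⟨⟨⟨hj0, hj1⟩, by linarith, by push_cast at hj1 ⊢; linarith⟩, ?_, ?_⟩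
    · rw [add_sub_cancel_left]
      exact c1
    · rw [add_sub_cancel_left, Nat.cast_one]
      exact c2
  have hblk := hB k b κ' P M z x y ρ (E - 9 * j0) C hb hκ hP hρ hG hC1 hC2
  -- the columns
  let rr : Fin b × Fin (P * R) → Fin (b * κ') := fun q =>
    ⟨((f q).2 % ((b * κ' : ℕ) : ℤ)).toNat, by
      have h1 := Int.emod_nonneg (f q).2 hκ0.ne'
      have h2 := Int.emod_lt_of_pos (f q).2 hκ0
      omega⟩
  have hrr : ∀ q, (((rr q : Fin (b * κ')) : ℕ) : ℤ) = (f q).2 % ((b * κ' : ℕ) : ℤ) := by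
    intro q
    show ((((f q).2 % ((b * κ' : ℕ) : ℤ)).toNat : ℕ) : ℤ) = _
    have h1 := Int.emod_nonneg (f q).2 hκ0.ne'
    omega
  have hli : LinearIndependent (KK k) (fun q : Fin b × Fin (P * R) => colv M j0
      (fun i : Fin b => algebraMap (OO k) (KK k) (PowerSeries.C ((y i : kˣ) : k)))
      (fun i j (r : Fin (b * κ')) => evK (x i) (Th (b * κ') ((r : ℕ) : ℤ)
      ((ρ : k) * (z : k) ^ (((b * κ' : ℕ) : ℤ) * (E - 9 * j))))) (q.2 : ℕ) (rr q)) := by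
    rw [Fintype.linearIndependent_iff]
    intro g hg q
    have hex : ∀ q, (∑ q', if f q' = f q then g q' else 0) = g q := by
      intro q
      rw [Finset.sum_eq_single q]
      · rw [if_pos rfl]
      · intro q' _ hq'
        rw [if_neg fun h => hq' (hf h)]
      · intro h
        exact absurd (Finset.mem_univ q) h
    have h1 := hblk (fun p => ∑ q', if f q' = p then g q' else 0) (by
      intro i α β hαβ
      rw [Finset.sum_image fun a _ b _ h => hf h]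
      have h2 := congrFun hg (i, ⟨(⟨α, by omega⟩, ⟨β, by omega⟩), hαβ⟩)
      rw [Finset.sum_apply] at h2
      rw [Pi.zero_apply] at h2
      refine Eq.trans ?_ h2
      refine Finset.sum_congr rfl fun q' _ => ?_
      rw [hex q', Pi.smul_apply, smul_eq_mul]
      unfold colv
      dsimp only
      rw [hrr]
      have h3 : (f q').1.toNat = (q'.2 : ℕ) := Int.toNat_natCast _
      have h4 : E - 9 * (j0 : ℤ) - 9 * (f q').1 = E - 9 * (((j0 + (q'.2 : ℕ)) : ℕ) : ℤ) := by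
        show E - 9 * (j0 : ℤ) - 9 * ((q'.2 : ℕ) : ℤ) = _
        push_cast
        ring
      rw [h3, h4]
      ring) (f q) (Finset.mem_image_of_mem f (Finset.mem_univ q))
    have h5 := hex q
    rw [← h5]
    exact h1
  have hcard : Fintype.card (Fin b × Fin (P * R)) = finrank (KK k) (Idx b M → KK k) := by
    rw [Module.finrank_fintype_fun_eq_card, Fintype.card_prod, Fintype.card_prod,
      Fintype.card_fin, Fintype.card_fin, card_tri, hch]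
  have hne : Nonempty (Fin b × Fin (P * R)) := by
    have h2 : 0 < (M + 1).choose 2 := Nat.choose_pos (by omega)
    exact ⟨(⟨0, hb⟩, ⟨0, by omega⟩)⟩
  have htop := hli.span_eq_top_of_card_eq_finrank hcard
  rw [eq_top_iff, ← htop]
  apply Submodule.span_mono
  rintro _ ⟨q, rfl⟩
  exact ⟨((q.2 : ℕ), rr q), rfl⟩

end Pool.Agent.Helper35.Tate.KRC
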