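import Pool.Agent.Helper97.Tate.Goals

/-!
# FewPoints (MP_d3128a_ag), packet TATE-LHY: the level hypothesis
-/

set_option autoImplicit false

namespace Pool.Agent.Helper35.Tate.LHY

open Pool.Agent.Helper97.Tate

theorem t (h1 : S_LEV) : S_LHY := by
  intro k _ _ α β γ hcub w hw P hP m d κ hκ hsum c hc b x j hj
  have hκ' : (κ : ℤ) = 3 * ((d - 3 * j : ℕ) : ℤ) -
      ∑ i : Fin 9, (fun i : Fin 9 => (m (i : ℕ) : ℤ) - j) i := by
    have e1 : ∑ i : Fin 9, (fun i : Fin 9 => (m (i : ℕ) : ℤ) - j) i =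
        ((∑ i ∈ Finset.range 9, m i : ℕ) : ℤ) - 9 * j := by
      rw [Finset.sum_range]
      push_cast
      rw [Finset.sum_sub_distrib]
      simp
    rw [e1]
    omega
  obtain ⟨a, ha1, ha2⟩ := h1 k α β γ hcub w hw (d - 3 * j)
    (fun i : Fin 9 => (m (i : ℕ) : ℤ) - j) κ hκ hκ'
  have hto : ∀ i : ℕ, ((m i : ℤ) - (j : ℤ)).toNat = m i - j := fun i => by omega
  have hW : WW P m ∅ d j =
      Sys w (d - 3 * j) (fun i : Fin 9 => ((m (i : ℕ) : ℤ) - (j : ℤ)).toNat) := by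
    unfold WW Sys Fm
    rw [if_pos (by omega : (0 : ℤ) ≤ (d : ℤ) - 3 * j)]
    have e2 : ((d : ℤ) - 3 * j).toNat = d - 3 * j := by omega
    rw [e2]
    ext z
    simp only [Submodule.mem_inf, Submodule.mem_iInf, Finset.mem_range]
    constructor
    · rintro ⟨⟨hz1, hz2⟩, -⟩
      refine ⟨hz1, fun i => ?_⟩
      have h3 := hz2 i i.isLt
      rw [hP i] at h3
      rw [hto]
      exact h3
    · rintro ⟨hz1, hz2⟩
      refine ⟨⟨hz1, fun i hi => ?_⟩, fun i hi => absurd hi (Finset.notMem_empty i)⟩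
      have h3 := hz2 ⟨i, hi⟩
      rw [← hP ⟨i, hi⟩, hto] at h3
      exact h3
  refine ⟨a ∘ₗ (LinearEquiv.ofEq _ _ hW).toLinearMap, ?_, ?_⟩
  · intro z hz
    exact ha1 (LinearEquiv.ofEq _ _ hW z) hz
  · intro z i
    have h2 := ha2 (x i) (LinearEquiv.ofEq _ _ hW z)
    have hcj : c j = ∏ i : Fin 9, (-((w i : kˣ) : k)) ^ ((m (i : ℕ) : ℤ) - j) := hc j
    have e3 : (∏ i' : Fin 9, evK (x i) (th (w i'))) ^ j =
        (∏ i' : Fin 9, evK (x i) (th (w i')) ^ (-((m (i' : ℕ) : ℤ) - (j : ℤ))).toNat) *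
          ∏ i' : Fin 9, evK (x i) (th (w i')) ^ min (m (i' : ℕ)) j := by
      rw [← Finset.prod_mul_distrib, ← Finset.prod_pow]
      refine Finset.prod_congr rfl fun i' _ => ?_
      rw [← pow_add]
      congr 1
      omega
    have e4 : (∏ i' : Fin 9, evK (x i) (th (w i')) ^ m (i' : ℕ)) =
        (∏ i' : Fin 9, evK (x i) (th (w i')) ^ ((m (i' : ℕ) : ℤ) - (j : ℤ)).toNat) *
          ∏ i' : Fin 9, evK (x i) (th (w i')) ^ min (m (i' : ℕ)) j := by
      rw [← Finset.prod_mul_distrib]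
      refine Finset.prod_congr rfl fun i' _ => ?_
      rw [← pow_add]
      congr 1
      omega
    show (∏ i' : Fin 9, evK (x i) (th (w i'))) ^ j *
        MvPolynomial.aeval (ph (x i)) (z : MvPolynomial (Fin 3) (KK k)) =
      (∏ i' : Fin 9, evK (x i) (th (w i')) ^ m (i' : ℕ)) *
        ∑ r : Fin κ, PowerSeries.C (a (LinearEquiv.ofEq _ _ hW z) r) *
          evK (x i) (Th κ ((r : ℕ) : ℤ) (c j))
    rw [e3, e4, hcj]
    have h5 : MvPolynomial.aeval (ph (x i)) (z : MvPolynomial (Fin 3) (KK k)) *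
        ∏ i' : Fin 9, evK (x i) (th (w i')) ^ (-((m (i' : ℕ) : ℤ) - (j : ℤ))).toNat =
      (∏ i' : Fin 9, evK (x i) (th (w i')) ^ ((m (i' : ℕ) : ℤ) - (j : ℤ)).toNat) *
        ∑ r : Fin κ, PowerSeries.C (a (LinearEquiv.ofEq _ _ hW z) r) *
          evK (x i) (Th κ ((r : ℕ) : ℤ)
            (∏ i : Fin 9, (-((w i : kˣ) : k)) ^ ((m (i : ℕ) : ℤ) - j))) := h2
    linear_combination (∏ i' : Fin 9, evK (x i) (th (w i')) ^ min (m (i' : ℕ)) j) * h5

end Pool.Agent.Helper35.Tate.LHY
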