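import Pool.Agent.Helper97.Tate.Goals

/-!
# FewPoints (MP_d3128a_ag), packet TATE-LSS: the loss
-/

set_option autoImplicit false

namespace Pool.Agent.Helper35.Tate.LSS

open Pool.Agent.Helper97.Tate

theorem odd_sq (r : ℕ) (h : r % 2 = 1) : 8 * ((r ^ 2 - 1) / 8) + 1 = r ^ 2 := by
  obtain ⟨t, ht⟩ : ∃ t, r = 2 * t + 1 := ⟨r / 2, by omega⟩
  subst ht
  obtain ⟨c, hc⟩ := Nat.even_mul_succ_self t
  have h1 : (2 * t + 1) ^ 2 = 8 * c + 1 := by
    calc (2 * t + 1) ^ 2 = 4 * (t * (t + 1)) + 1 := by ring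
      _ = 8 * c + 1 := by
        rw [show t * (t + 1) = t * t.succ from rfl, hc]
        ring
  rw [h1]
  omega

theorem choose_sq (u : ℕ) : 8 * (u + 1).choose 2 + 1 = (2 * u + 1) ^ 2 := by
  have h1 : 2 * (u + 1).choose 2 = (u + 1) * u := by
    rw [Nat.choose_two_right, Nat.add_sub_cancel]
    apply Nat.mul_div_cancel'
    rw [mul_comm]
    exact (Nat.even_mul_succ_self u).two_dvd
  calc 8 * (u + 1).choose 2 + 1 = 4 * (2 * (u + 1).choose 2) + 1 := by ring
    _ = (2 * u + 1) ^ 2 := by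
      rw [h1]
      ring

theorem t : S_LSS := by
  intro k u hk
  have hdiv : 4 * k * ((2 * u + 1) / (4 * k)) + (2 * u + 1) % (4 * k) = 2 * u + 1 :=
    Nat.div_add_mod _ _
  have hlt : (2 * u + 1) % (4 * k) < 4 * k := Nat.mod_lt _ (by omega)
  set r := (2 * u + 1) % (4 * k) with hr
  set Q := (2 * u + 1) / (4 * k) with hQ
  have hassoc : 4 * k * Q = 2 * (2 * (k * Q)) := by ring
  have hodd : r % 2 = 1 := by omega
  have hodd' : (4 * k - r) % 2 = 1 := by omega
  have hmin_le : min r (4 * k - r) ≤ 2 * k := by omega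
  have hmin_odd : min r (4 * k - r) % 2 = 1 := by
    rcases min_choice r (4 * k - r) with h | h <;> rw [h] <;> assumption
  have hloss : 8 * loss k u + 1 = (min r (4 * k - r)) ^ 2 := by
    unfold loss
    exact odd_sq _ hmin_odd
  have hbound : loss k u ≤ k * (k - 1) / 2 := by
    have h1 : min r (4 * k - r) ≤ 2 * k - 1 := by omega
    have h2 : (min r (4 * k - r)) ^ 2 ≤ (2 * k - 1) ^ 2 := Nat.pow_le_pow_left h1 2
    obtain ⟨j, rfl⟩ : ∃ j, k = j + 1 := ⟨k - 1, by omega⟩
    have h3 : (2 * (j + 1) - 1) ^ 2 = 4 * ((j + 1) * j) + 1 := by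
      rw [show 2 * (j + 1) - 1 = 2 * j + 1 by omega]
      ring
    rw [h3] at h2
    rw [Nat.add_sub_cancel, Nat.le_div_iff_mul_le (by norm_num)]
    omega
  refine ⟨?_, hbound, ?_⟩
  · have hch := choose_sq u
    rcases le_or_gt r (4 * k - r) with hc | hc
    · refine ⟨Q, 2 * (k * Q) + r, ?_, ?_⟩
      · rw [show 2 * k * Q = 2 * (k * Q) by ring]
        omega
      · rw [min_eq_left hc] at hloss
        have h1 : (2 * u + 1) ^ 2 = 8 * (k * (Q * (2 * (k * Q) + r))) + r ^ 2 := by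
          rw [← hdiv]
          ring
        omega
    · obtain ⟨s, hs⟩ : ∃ s, r + s = 4 * k := ⟨4 * k - r, by omega⟩
      have hs' : 4 * k - r = s := by omega
      rw [hs'] at hc hloss
      rw [min_eq_right hc.le] at hloss
      have hsk : s < 2 * k := by omega
      obtain ⟨R, hR⟩ : ∃ R, R + s = 2 * (k * (Q + 1)) := by
        refine ⟨2 * (k * (Q + 1)) - s, ?_⟩
        have : k ≤ k * (Q + 1) := Nat.le_mul_of_pos_right k (Nat.succ_pos Q)
        omega
      have h2u : 2 * u + 1 = 2 * (k * (Q + 1)) + R := by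
        have h4 : 4 * k * Q + 4 * k = 2 * (2 * (k * (Q + 1))) := by ring
        omega
      refine ⟨Q + 1, R, ?_, ?_⟩
      · rw [show 2 * k * (Q + 1) = 2 * (k * (Q + 1)) by ring]
        exact h2u.symm
      · have h1 : (2 * u + 1) ^ 2 = 8 * (k * ((Q + 1) * R)) + s ^ 2 := by
          rw [h2u, ← hR]
          have h5 : 8 * (k * ((Q + 1) * R)) = 4 * (2 * (k * (Q + 1))) * R := by ring
          rw [h5, ← hR]
          ring
        omega
  · rcases Nat.eq_or_lt_of_le hk with h | h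
    · subst h
      have := hbound
      omega
    · -- the general case of `loss 1 u`
      unfold loss
      have h1 : (2 * u + 1) % (4 * 1) = 1 ∨ (2 * u + 1) % (4 * 1) = 3 := by omega
      rcases h1 with h1 | h1 <;> rw [h1] <;> norm_num

end Pool.Agent.Helper35.Tate.LSS
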