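import Pool.Agent.Helper97.Tate.Goals

/-!
# FewPoints (MP_d3128a_ag), packet TATE-VSR
-/

set_option autoImplicit false

namespace Pool.Agent.Helper35.Tate.VSR

open Pool.Agent.Helper97.Tate

theorem t (h1 : S_VAB) : S_VSR := by
  intro k _ w a z hz
  obtain ⟨-, -, -, h4⟩ := h1 (KK k) (fun r => PowerSeries.constantCoeff (ph w r))
  have h5 := h4 (PowerSeries (KK k)) (MvPolynomial.aeval (ph w))
    (Ideal.span {(PowerSeries.X : PowerSeries (KK k))}) a z (by
      intro r
      rw [Ideal.mem_span_singleton, PowerSeries.X_dvd_iff, map_sub, MvPolynomial.aeval_X]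
      have h6 : (algebraMap (KK k) (PowerSeries (KK k))) (PowerSeries.constantCoeff (ph w r)) =
          PowerSeries.C (PowerSeries.constantCoeff (ph w r)) := rfl
      rw [h6, PowerSeries.constantCoeff_C, sub_self]) hz
  rw [Ideal.span_singleton_pow, Ideal.mem_span_singleton] at h5
  exact h5

end Pool.Agent.Helper35.Tate.VSR
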